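import Pool.Agent.Hhelper75.Low4.Present
import Pool.Agent.Hhelper75.Low4.Decode

/-!
# A finite-dimensional connected low₄-presented Polish space without computable presentation

The space is a planar continuum: a bouquet of arcs in which, for every `d` in a suitable set `D`
of low₄ degree, there is a point where exactly `d + 3` arcs meet.  The set `D` can be recovered
as a `Σ₄` set from every computable presentation, but `D` is not `Σ₄`.
-/

namespace Pool.Agent.Results.MP_f0c992_lc.LowFourContinuum

open Low4

/-- There are a set `D` of low₄ degree and a compact connected finite-dimensional subset `K` of the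
plane (hence a Polish space) which has a `D`-computable presentation and which is not homeomorphic
to any computably presented Polish space. -/
theorem result :
    ∃ D : Set ℕ, LowFour D ∧
      ∃ K : Set (ℝ × ℝ), IsCompact K ∧ ConnectedSpace K ∧ PolishSpace K ∧ FiniteDim K ∧
        Presented D K ∧
        ∀ (Y : Type) [TopologicalSpace Y] [PolishSpace Y], Presented ∅ Y → IsEmpty (K ≃ₜ Y) := by
  obtain ⟨D, hlow, hinf, hnot⟩ := exists_low4
  have hK : IsCompact (XS D) := isCompact_XS D
  have : CompactSpace (XS D) := isCompact_iff_compactSpace.1 hK
  have : PolishSpace (XS D) := hK.isClosed.polishSpace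
  refine ⟨D, hlow, XS D, hK, isConnected_iff_connectedSpace.1 (isConnected_XS D), inferInstance,
    ⟨3, coveringDim_of_compact hK⟩, presented_XS D, ?_⟩
  intro Y tY _ hY
  refine ⟨fun φ => hnot ?_⟩
  obtain ⟨m, hm, -, x, hx, a, ha, hd⟩ := hY
  subst hm
  have : CompactSpace Y := φ.compactSpace
  have ha' : Computable a := by
    refine RecursiveIn.partrec_of_oracle ?_ ha
    intro g hg
    rw [Set.mem_singleton_iff] at hg
    subst hg
    have : Computable fun _ : ℕ => (0 : ℕ) := Computable.const 0
    refine this.partrec.of_eq fun n => ?_
    simp [chi]
  exact ce_of_fan ha' hd hx ((isFan_XS D).map φ) hinf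

end Pool.Agent.Results.MP_f0c992_lc.LowFourContinuum
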